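import Pool.Agent.SharpPoly.Count
import Pool.Agent.SHP.Main

/-!
Uniqueness of sharp polynomials fails in almost all odd degrees: a criterion by divisors of `d + 1` and
`d - 2`, and an upper bound for the number of odd degrees in which uniqueness holds.
-/

set_option autoImplicit false

open Pool.Agent.SharpPoly

namespace Pool.Agent.Results.MP_ada113_al.AlmostAllDegrees

open Classical in
/-- (1) the number of odd `d < X` in which uniqueness holds is `O(X / (log log X) ^ c)`; (2) the divisor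
criterion; (3) further residue classes. -/
theorem result :
    (∃ c C : ℝ, 0 < c ∧ 0 < C ∧ ∀ X : ℕ, 3 ≤ X →
      (((Finset.range X).filter fun d => Odd d ∧ ¬ UniqFails d).card : ℝ) ≤
        C * X / Real.log (Real.log X) ^ c) ∧
    (∀ d t q : ℕ, Odd d → t ∣ d + 1 → q ∣ d - 2 → Odd t → Odd q → ¬ 3 ∣ t → t % 3 = q % 3 →
      2 * t < q → q < 4 * t → UniqFails d) ∧
    ∀ d : ℕ,
      (∃ p q k : ℕ, Odd p ∧ Odd q ∧ Odd k ∧ Odd d ∧ 2 * p < q ∧
        (q + p) * d + 4 * q = 3 * q * (q - p) * k + 2 * p) ∨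
      d % 36 = 29 ∨ d % 252 = 233 ∨ d % 360 = 197 ∨ d % 396 = 233 ∨ d % 420 = 237 ∨
      d % 420 = 377 ∨ d % 540 = 377 ∨ d % 660 = 189 ∨ d % 660 = 629 ∨ d % 924 = 65 ∨
      d % 924 = 485 ∨ d % 924 = 681 → UniqFails d := by
  refine ⟨?_, ?_, ?_⟩
  · obtain ⟨c, C, hc, hC, h⟩ := SHP.main
    refine ⟨c, C, hc, hC, fun X hX => ?_⟩
    have e : (Finset.range X).filter (fun d => Odd d ∧ ¬ UniqFails d) = SHP.NU X := by
      ext d
      rw [Finset.mem_filter, Finset.mem_range, SHP.mem_NU]
    rw [e]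
    exact h X hX
  · intro d t q hd ht hq hto hqo h3 h4 h1 h2
    exact SHP.uf_div hd ht hq hto hqo (fun h => h3 (Nat.dvd_of_mod_eq_zero h)) h4 h1 h2
  · rintro d (⟨p, q, k, hp, hq, hk, hd, hpq, h⟩ | h | h | h | h | h | h | h | h | h | h | h | h)
    · exact fail_param hp hq hk hd hpq h
    · exact fail_29_36 h
    · exact fail_233_252 h
    · exact fail_197_360 h
    · exact fail_233_396 h
    · exact fail_237_420 h
    · exact fail_377_420 h
    · exact fail_377_540 h
    · exact fail_189_660 h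
    · exact fail_629_660 h
    · exact fail_65_924 h
    · exact fail_485_924 h
    · exact fail_681_924 h

end Pool.Agent.Results.MP_ada113_al.AlmostAllDegrees
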